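import Pool.Agent.W296.MC.Iface
import Pool.Agent.W296.MC.Per

/-!
# Minimal non-faces of multi-cluster complexes: the skipping lemma
-/

set_option autoImplicit false

namespace Pool.Agent.W283.MC

open Pool.Agent.W296.MC

variable {B : Type} {q : ℕ → B} {n : ℕ}

lemma nf_add_mul (hq : Per q n) (τ : ℕ) (b : B) (η : ℕ) :
    nf q (τ + η * n) b = nf q τ b + η * n := by
  induction η with
  | zero => simp
  | succ η ih =>
    have h : τ + (η + 1) * n = (τ + η * n) + n := by ring
    rw [h, nf_add hq, ih]
    ring

lemma en_add_mul (hq : Per q n) (τ : ℕ) (γ : List B) (η : ℕ) :
    en q (τ + η * n) γ = en q τ γ + η * n := by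
  induction η with
  | zero => simp
  | succ η ih =>
    have h : τ + (η + 1) * n = (τ + η * n) + n := by ring
    rw [h, en_add hq, ih]
    ring

lemma q_add_mul (hq : Per q n) (t η : ℕ) : q (t + η * n) = q t := by
  induction η with
  | zero => simp
  | succ η ih =>
    have h : t + (η + 1) * n = (t + η * n) + n := by ring
    rw [h, hq.per, ih]

theorem skip_aux (hq : Per q n) (I : Finset ℕ) (k : ℕ) : ∀ (γ : List B) (d η τ : ℕ), η + d = k + 1 →
    (∃ L : List ℕ, L.Pairwise (· < ·) ∧ L.map q = γ ∧
      ∀ x ∈ L, τ + η * n ≤ x ∧ x ∉ I ∧ ∃ g ∈ gp q τ γ, ∃ η', η' ≤ k ∧ x = g + η' * n) ∨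
    (γ ≠ [] ∧ ∃ I' : Finset ℕ, I' ⊆ I ∧ I'.card = d ∧ (∀ x ∈ I', τ + η * n ≤ x) ∧
      ∀ L : List ℕ, L.Pairwise (· < ·) → L.map q = γ → (∀ x ∈ L, τ + η * n ≤ x) →
        (∀ x ∈ L, x ∉ I') → ∀ h : L ≠ [], en q τ γ + (k + 1) * n ≤ L.getLast h + 1) := by
  have hn := n_pos hq
  intro γ
  induction γ with
  | nil =>
    intro d η τ _
    left
    exact ⟨[], by simp, by simp, by simp⟩
  | cons b γ ih =>
    intro d
    induction d with
    | zero =>
      intro η τ h
      right
      refine ⟨by simp, ∅, by simp, by simp, by simp, ?_⟩
      intro L h1 h2 h3 _ h5
      have h6 : η = k + 1 := by omega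
      subst h6
      have h7 := en_le_of_pos hq L (τ + (k + 1) * n) h1 h3 h5
      rw [h2, en_add_mul hq] at h7
      exact h7
    | succ d ihd =>
      intro η τ h
      have hg1 := nf_ge hq τ b
      have hg2 := nf_lt hq τ b
      have hqg := q_nf hq τ b
      by_cases hx : nf q τ b + η * n ∈ I
      · rcases ihd (η + 1) τ (by omega) with ⟨L, h1, h2, h3⟩ | ⟨_, I', h1, h2, h3, h4⟩
        · left
          refine ⟨L, h1, h2, ?_⟩
          intro x hx
          obtain ⟨h4, h5⟩ := h3 x hx
          refine ⟨?_, h5⟩
          have : (η + 1) * n = η * n + n := by ring
          omega
        · right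
          have hmul : (η + 1) * n = η * n + n := by ring
          have hnot : nf q τ b + η * n ∉ I' := by
            intro h5
            have := h3 _ h5
            omega
          refine ⟨by simp, insert (nf q τ b + η * n) I', ?_, ?_, ?_, ?_⟩
          · intro y hy
            rw [Finset.mem_insert] at hy
            rcases hy with rfl | hy
            · exact hx
            · exact h1 hy
          · rw [Finset.card_insert_of_notMem hnot, h2]
          · intro y hy
            rw [Finset.mem_insert] at hy
            rcases hy with rfl | hy
            · omega
            · have := h3 y hy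
              omega
          · intro L h5 h6 h7 h8 h9
            apply h4 L h5 h6 _ _ h9
            · cases L with
              | nil => exact absurd rfl h9
              | cons y L =>
                rw [List.map_cons, List.cons.injEq] at h6
                have hy1 : nf q τ b + η * n ≤ y := by
                  rw [← nf_add_mul hq]
                  exact nf_le (h7 y (by simp)) h6.1
                have hy2 : y ≠ nf q τ b + η * n := by
                  intro h10
                  apply h8 y (by simp)
                  rw [Finset.mem_insert]
                  exact Or.inl h10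
                have hy3 : nf q τ b + η * n + n ≤ y := by
                  have h11 := nf_succ hq (nf q τ b + η * n)
                  rw [q_add_mul hq, hqg] at h11
                  rw [← h11]
                  exact nf_le (by omega) h6.1
                intro x hx
                rw [List.mem_cons] at hx
                rw [List.pairwise_cons] at h5
                rcases hx with rfl | hx
                · omega
                · have := h5.1 x hx
                  omega
            · intro x hx h10
              exact h8 x hx (Finset.mem_insert_of_mem h10)
      · rcases ih (d + 1) η (nf q τ b + 1) h with ⟨L, h1, h2, h3⟩ | ⟨h0, I', h1, h2, h3, h4⟩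
        · left
          refine ⟨(nf q τ b + η * n) :: L, ?_, ?_, ?_⟩
          · rw [List.pairwise_cons]
            refine ⟨?_, h1⟩
            intro y hy
            have := (h3 y hy).1
            omega
          · rw [List.map_cons, h2, q_add_mul hq, hqg]
          · intro x hx'
            rw [List.mem_cons] at hx'
            rcases hx' with rfl | hx'
            · refine ⟨by omega, hx, nf q τ b, ?_, η, by omega, rfl⟩
              simp [gp]
            · obtain ⟨h5, h6, g, h7, h8⟩ := h3 x hx'
              refine ⟨by omega, h6, g, ?_, h8⟩
              simp only [gp, List.mem_cons]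
              exact Or.inr h7
        · right
          refine ⟨by simp, I', h1, h2, ?_, ?_⟩
          · intro y hy
            have := h3 y hy
            omega
          · intro L h5 h6 h7 h8 h9
            cases L with
            | nil => exact absurd rfl h9
            | cons y L =>
              rw [List.map_cons, List.cons.injEq] at h6
              have hy1 : nf q τ b + η * n ≤ y := by
                rw [← nf_add_mul hq]
                exact nf_le (h7 y (by simp)) h6.1
              rw [List.pairwise_cons] at h5
              have hL : L ≠ [] := by
                rintro rfl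
                apply h0
                rw [← h6.2, List.map_nil]
              rw [List.getLast_cons hL, en_cons]
              apply h4 L h5.2 h6.2
              · intro x hx
                have := h5.1 x hx
                omega
              · intro x hx
                exact h8 x (List.mem_cons_of_mem _ hx)

theorem skip : Skip := by
  intro B q n hq γ I k
  rcases skip_aux hq I k γ (k + 1) 0 0 (by omega) with ⟨L, h1, h2, h3⟩ | ⟨_, I', h1, h2, _, h4⟩
  · left
    refine ⟨L, h1, h2, ?_⟩
    intro x hx
    exact (h3 x hx).2
  · right
    refine ⟨I', h1, h2, ?_⟩
    intro L h5 h6 h7 h8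
    exact h4 L h5 h6 (by intro x _; omega) h7 h8

end Pool.Agent.W283.MC
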